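import Pool.Agent.N567.MD.MainH

/-!
# Beilinson's arithmetic hard Lefschetz conjecture and nilpotence in the middle

Let `𝒱` be a class of varieties over a field `k` (a number field, say) which satisfy the standard
conjecture of Lefschetz type, closed under products and smooth complete intersections (the
hypotheses used here, `IsLefschetzClass`, `HasSections` and the existence of Lefschetz divisors, are
consequences).

Beilinson conjectures that over a number field the multiplication with the power `n + 1 - 2 i` of the
class of an ample divisor is an isomorphism of the groups of homologically trivial cycles in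
`CH^i(X)` and `CH^(n+1-i)(X)`, `n = dim X`. It is shown that this conjecture for all `X` in `𝒱`,
together with the vanishing of the products of homologically trivial cycles, is equivalent to the
nilpotence of the action of correspondences killing `H^(2j-1)` in the middle dimension `2 j - 1`, `j`
arbitrarily large, and to the injectivity of a single Lefschetz operator below the middle.
-/

set_option autoImplicit false

universe u v w

namespace Pool.Agent.Results.MP_e2c9e7_nt.HardLefschetz

open Pool.Agent.H914 Pool.Agent.N164.Prim Pool.Agent.N567.Mid
open Pool.Agent.W492.BB (TheoryData WeilTheoryData)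

/-- Let `𝒱` be a Lefschetz class of varieties with enough sections (with Chow groups `C` and a Weil
cohomology `H`) which contains a curve; let every variety in `𝒱` have a Lefschetz divisor. The
following are equivalent:

* products of homologically trivial classes vanish, and the conjecture of Beilinson is true for all
  `X` in `𝒱` and all Lefschetz divisors `h` on `X`: for `2 i ≤ n + 1`, `n = dim X`, the multiplication
  with `h^(n+1-2i)` is an isomorphism of the groups of homologically trivial classes in `CH^i(X)` and
  in `CH^(n+1-i)(X)`;
* products of homologically trivial classes vanish, and every `X` in `𝒱` has one Lefschetz divisor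
  `h` such that the multiplication with `h` is injective on the homologically trivial classes in
  `CH^j(X)`, `2 j ≤ dim X`;
* correspondences which act as zero on `H^(2j-1)(X)` act as zero on the homologically trivial
  classes in `CH^j(X)`, for all `X` in `𝒱` and all `j`;
* for arbitrarily large `j` every variety `X` of dimension `2 j - 1` is covered by a variety `X'` of
  dimension `2 j' - 1` such that the self-correspondences acting as zero on `H^(2j'-1)(X')` act
  nilpotently on the homologically trivial classes in `CH^(j')(X')`. -/
theorem result {k : Type u} [Field k] {𝒱 : VarClass k} {C : TheoryData.{u, v, 0} 𝒱 ℚ}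
    [IsChowTheory C] {K : Type w} [Field K] {H : WeilTheoryData.{u, v, w} C K} [IsWeilTheory H]
    (hg : IsGradedCommutative H) (hL : IsLefschetzClass H) (hS : HasSections H) {T : 𝒱.Obj}
    (hT : T.dim = 1) (hB : ∀ X : 𝒱.Obj, ∃ h : C.A X, IsLefschetzDivisor H X h) :
    List.TFAE [ProductsVanish H ∧ ∀ (X : 𝒱.Obj) (h : C.A X), IsLefschetzDivisor H X h →
        ArithmeticLefschetz H X h,
      ProductsVanish H ∧ ∀ X : 𝒱.Obj, ∃ h : C.A X, IsLefschetzDivisor H X h ∧
        InjectiveBelowMiddle H X h,
      DependsOn H (fun j m => m = 2 * j - 1),
      ∀ e : ℕ, ∃ j, e ≤ j ∧ ∀ X : 𝒱.Obj, X.dim + 1 = 2 * j →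
        ∃ (X' : 𝒱.Obj) (j' : ℕ), Covers C X' X ∧ X'.dim + 1 = 2 * j' ∧ NilpotentOdd H X' j'] :=
  mainH inferInstance inferInstance hg hL hS hT hB

end Pool.Agent.Results.MP_e2c9e7_nt.HardLefschetz
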