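import Pool.Agent.N166.HI.Main

/-!
# Beilinson's hard Lefschetz and Hodge index conjectures for one variety

Let `X` be a smooth projective variety of dimension `n` over a field (a number field, say), with a
Chow-Kuenneth decomposition `π` which satisfies the hard Lefschetz theorem for the divisor class `h` on
the level of Chow motives (`IsLefschetzCK`): the multiplication with `h^(n-m)` is an isomorphism of
the motives `h^m(X)` and `h^(2n-m)(X)(n-m)` for `m ≤ n`. Such decompositions exist for instance for
abelian varieties and symmetric ample `h` (Kuennemann), for complete intersections, and for the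
varieties with a finite-dimensional motive which satisfy the standard conjecture of Lefschetz type.
Nothing is assumed about other varieties.

Beilinson conjectures, over number fields, for `2 i ≤ n + 1`:

* Q1: `h^(n+1-2i) : CH^i(X)_hom → CH^(n+1-i)(X)_hom` is an isomorphism (`ArithmeticLefschetz`);
* Q2: `(-1)^i (z, h^(n+1-2i) z) > 0` for `z ≠ 0` in `CH^i(X)_hom` with `h^(n+2-2i) z = 0`
  (`HodgeIndex`), where `(·, ·)` is the height pairing.

Theorem.

(1) Q1 for `X` (all `i`) is true if and only if for all `i` the homologically trivial cycles in
`CH^i(X)` belong to the part `h^(2i-1)(X)` of the motive: `π m` kills them for all `m ≠ 2 i - 1`. This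
is what the conjectures of Bloch, Beilinson and Murre predict over number fields. In particular it
does not depend on `h`, as long as `π` is the same (as for the symmetric ample `h` on an abelian
variety), and for abelian varieties Q1 is equivalent to the vanishing of the parts
`CH^i_(s)(X)_hom`, `s ≠ 1`, of the decomposition of Beauville.

(2) If `π` is self-dual, Q2 for `X` (all `i`) is true if and only if `π m` kills `CH^i(X)_hom` for all
`m ≥ 2 i`, and Q2 is true for the classes in the parts of weight `2 i - 1`.

(3) If `π` is self-dual and Q2 is true for `X`, then Q1 is true for `X` if and only if the height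
pairing on `X` is nondegenerate.

(4) If the motive of `X` is finite-dimensional in the sense of Kimura, then Q1 for `X` and `h` is
equivalent to Q1 for all the pairs `(h', π')` as above on `X`, and to the following property, which
does not involve `h` or `π`: for all `i`, self-correspondences of degree zero which act as zero on
`H^(2i-1)(X)` act nilpotently on the homologically trivial cycles in `CH^i(X)`.

The framework (Chow groups `C` and a Weil cohomology `H` on a class `𝒱` of varieties, `IsChowTheory`,
`IsWeilTheory`, `IsCK`, `IsKimuraFinite`) is that of `Pool.Agent.N164` and `Pool.Agent.N567`.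
-/

set_option autoImplicit false

universe u v w

namespace Pool.Agent.Results.MP_e2c9e7_nt.SingleVariety

open Pool.Agent.H914 Pool.Agent.N164.Prim Pool.Agent.N567.Mid Pool.Agent.N166.HI
open Pool.Agent.W492.BB (TheoryData WeilTheoryData)

/-- **Beilinson's conjectures for one variety.** -/
theorem result {k : Type u} [Field k] {𝒱 : VarClass k} {C : TheoryData.{u, v, 0} 𝒱 ℚ}
    [IsChowTheory C] {K : Type w} [Field K] {H : WeilTheoryData.{u, v, w} C K} [IsWeilTheory H]
    {X : 𝒱.Obj} {h : C.A X} {π : ℕ → Cor C X X} (hL : IsLefschetzCK H X h π) :
    (ArithmeticLefschetz H X h ↔ OddPartsOnly H X π) ∧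
    (∀ ht : C.A X → C.A X → ℝ, IsSelfDual π → IsHeightPairing H X ht →
      (HodgeIndex H X h ht ↔ NoHighParts H X π ∧ OddHodgeIndex H X h π ht) ∧
      (HodgeIndex H X h ht → (ArithmeticLefschetz H X h ↔ IsNondegenerate H X ht))) ∧
    (IsKimuraFinite C X → List.TFAE [ArithmeticLefschetz H X h,
      ∀ (h' : C.A X) (π' : ℕ → Cor C X X), IsLefschetzCK H X h' π' → ArithmeticLefschetz H X h',
      OddPartsOnly H X π,
      DependsOnOddCohomology H X]) :=
  ⟨(main inferInstance inferInstance hL).1, (main inferInstance inferInstance hL).2,
    fun hK => main_kimura inferInstance inferInstance hL hK⟩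

end Pool.Agent.Results.MP_e2c9e7_nt.SingleVariety
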